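import Pool.Agent.J6H7.BD.Top

set_option autoImplicit false

/-! # The motivic monodromy conjecture for products of the determinantal ideals of block diagonal matrices

Let `X_1, …, X_k` be matrices with independent entries: for each `b < k` either the generic `m × n`
matrix or the generic symmetric `n × n` matrix (`Blk`), and let `M = diag(X_1, …, X_k)` be the block
diagonal matrix with these blocks (`blockMatrixZ S`, with `S b` the type of `X_b`). So the ideal
`I_p` of the `p`-minors of `M` is the sum of the products `∏ b, I_{q b}(X_b)` over all `q` with
`∑ b, q b = p`. Let `r = ∑ b, rk X_b` (`rkS S`) be the maximal rank of `M`. Let `p t < r`, `t < T`, be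
sizes of minors, and let `I = ∏ t, I_{p t}`, generated by the products of one minor of `M` of size
`p t` for each `t` (`bdI`); the `p t` need not be different.

For a tuple `d = (d_b)`, `d_b ≤ rk X_b`, with `d_b < rk X_b` for some `b` (`Loc S`), let `ν_d` be the
codimension of the set `Z_d` of the `x` with `rank X_b ≤ d_b` for all `b`, the sum of the
`(m - d_b) (n - d_b)`, respectively `(n - d_b) (n - d_b + 1) / 2` (`Loc.codim`), and let
`N_d = ∑ t, max (p t - ∑ b, d_b, 0)` (`Loc.mul`).

The local motivic zeta function of `I` at the origin is
`𝕃 ^ (-n) ∑_{l ≥ 1} [𝒳_l] 𝕃 ^ (-n l) T ^ l` (`zetaJ`), `𝒳_l` the set of the `l`-jets with origin `0` on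
which `I` has the order `l`, `n` the number of the variables; by the change of variables formula
this is the function defined with a resolution. It is defined in the Grothendieck ring of varieties
over `K`, localised at `𝕃`, for every field `K` of characteristic `0`.
No resolution is used: the jets are divided according to the orders of the ideals `I_{p t}`, and
these are computed by a recursion: where an entry of a block is a unit (for symmetric blocks: an
entry of the diagonal, or a principal minor of size `2` of one block), the Schur complement reduces
to a smaller block diagonal matrix of the same kind; where `x(0) = 0` one divides by `t`, which gives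
the denominators `1 - 𝕃 ^ (-ν_d) T ^ (N_d)`, `d` the tuple of the sizes of the pivots in the blocks.

The proof for the roots: the divisors `E_d` over the `Z_d` are Rees divisors of `I`: at a general point
of `E_d` the exceptional coordinates are given by quotients of minors, in a chart with the block
diagonal matrix with the blocks `X_b = (A_b, B_b; C_b, C_b A_b⁻¹ B_b + z Y_b)`, with one equation `z`
for all the blocks. The functional equation is lifted to the chart, and its terms are compared
along `E_d`. -/

namespace Pool.Agent.Results.MP_4e5fcd_ag.BlockDiagonalIdeals

open MvPolynomial Pool.Agent.H628R4.TP Pool.Agent.TH192.DT Pool.Agent.TH192.MT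
  Pool.Agent.TH192.MU Pool.Agent.W428.MOT Pool.Agent.W574.LM Pool.Agent.J6H7.BD

/-- **The motivic monodromy conjecture for `I = ∏ t, I_{p t}`**, `I_p` the ideal of the `p`-minors of a
block diagonal matrix with `k` independent generic or symmetric blocks. Let `b` be a polynomial for
which `H b` satisfies a functional equation of Budur, Mustata and Saito of the generators of `I`
(`bdIEq`) for some polynomial `H` with `H(0) ≠ 0`, for instance the local Bernstein-Sato polynomial
of `I` at the origin, or (`H = 1`) the global one. (1) The numbers `-(ν_d + l) / N_d`, `0 ≤ l < N_d`, for
all `d` are roots of `b`. By the theorem of Budur, Mustata and Saito, `exp(-2 π i ν_d / N_d)` is an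
eigenvalue of the Verdier monodromy of `I` at a point over each neighbourhood of the origin. (2) For
every field `K` of characteristic `0` the local motivic zeta function of `I` at the origin lies in the
ring generated by `T` and the `1 / (1 - 𝕃 ^ (-ν_d) T ^ (N_d))`, `N_d > 0`. -/
theorem result {k : ℕ} (S : Fin k → Blk) (T : ℕ) (p : Fin T → ℕ) (hp : ∀ t, p t < rkS S) :
    (∀ (b : Polynomial ℂ) (H : MvPolynomial (BVar S) ℂ), constantCoeff H ≠ 0 → bdIEq S p H b →
      ∀ (d : Loc S) (l : ℕ), l < d.mul p → b.eval (-((d.codim : ℂ) + l) / d.mul p) = 0) ∧
    ∀ (K : Type) [Field K] [CharZero K], zetaJ (bdI S K p) ∈ ratRing K (bdIPairs S p) := by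
  refine ⟨fun b H hH hb d l hl => (sysB S p hp).roots id b H hH hb d l hl, fun K _ _ => ?_⟩
  exact fam_zetaJ (g := bdG S p) (bd_rat S K p hp)

end Pool.Agent.Results.MP_4e5fcd_ag.BlockDiagonalIdeals
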