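import Pool.Agent.J6H66.FM.Main

set_option autoImplicit false

/-! # The motivic monodromy conjecture for products of flags of determinantal ideals

Let `X` be the generic `m × n` matrix, and let `R` be a finite set of numbers `r ≤ m`: the blocks of
rows of `X` end at the rows `r ∈ R`. If `r' < q ≤ r` for consecutive elements `r' < r` of `R ∪ {0}`
(`r' = blockStart R q`, `r = blockEnd R q`), let `J_q` be the ideal generated by the `q`-minors of the
first `r` rows of `X` which contain the first `r'` rows (`flagMinor`). For `R = {m}` it is the ideal of
all `q`-minors, for `R = {1, …, m}` it is the ideal of the maximal minors of the first `q` rows, that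
is, of the Plücker coordinates of the flag of the row spaces. Let `1 ≤ q t ≤ n`, `t < T`, be sizes of
minors which satisfy the completeness condition of `IsFlagType`: for every `j ≤ N := max q` there is a
`t` with `q t = j`, or with `j < q t < n` such that the row `q t` is in the block of the row `j`
and is not its last row. For instance, all `j ≤ N` occur, or, for each block, the last two of its
`j ≤ N` occur.

Let `I = ∏ t, J_(q t)`, generated by the products of one generator of `J_(q t)` for each `t`
(`prodFam`).

For `1 ≤ j ≤ N` let `Z_j` be the set of the matrices, the first `r = blockEnd R j` rows of which have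
rank less than `j`; it has the codimension `ν_j = (r - j + 1) (n - j + 1)` (`flagNu`, `j = d + 1`). Let
`Y` be the space obtained by blowing up, for `j = 1, …, N`, the strict transforms of the `Z_j`. It is a
tower of spaces of complete collineations: let `r' < r` be as above, and let the centers of index
`j ≤ r'` be blown up already. By induction, the ideal of the maximal minors of the first `r'` rows is
then locally generated by one minor; that is, the first `r'` rows are, up to the order of the
columns, `A (1, W)` with a square matrix `A`, `det A` the generator of this ideal, and a matrix `W` of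
regular functions. Let `(C, D)` be the next block of rows. Its entries are coordinates, which can be
changed to the entries of `C` and of `D' = D - C W`. By row and column operations, for `r' < q ≤ r`
the ideal `J_q` is the product of `(det A)` and the ideal of the `(q - r')`-minors of the generic
`(r - r') × (n - r')` matrix `D'`, and the strict transform of `Z_j`, `r' < j ≤ r`, is the set
`rank D' < j - r'`. So the next blow-ups are those of the theorem on complete collineations for
`D'`: their centers are smooth, `Y` is smooth, the `E_j` cross normally, the multiplicity of the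
Jacobian determinant along `E_j` is `ν_j - 1`, and for `q ≤ N` the ideal `J_q` is locally on `Y`
generated by one of its generators and has the multiplicity `max (min (q, blockEnd R j) - j + 1, 0)`
(`flagOrd`) along `E_j`: for the `j` in the block of `q` this is `max (q - j + 1, 0)`, for the `j` in an
earlier block it is the multiplicity of `det A`. So `Y` is a principalization of `I`, with the components
`E_j`, `j ≤ N`, of multiplicity `N_j = ∑ t, max (min (q t, blockEnd R j) - j + 1, 0)`.

The motivic zeta function of `I` at the origin, computed on this principalization, is
`∑_J c_J ∏_{i ∈ J} 𝕃 ^ (-ν_i) T ^ (N_i) / (1 - 𝕃 ^ (-ν_i) T ^ (N_i))` (`dlZ`), where `J` runs over the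
sets of components and `c_J ∈ 𝓜_ℂ` is `𝕃 ^ (-m n) (𝕃 - 1) ^ |J|` times the class of the part of the
stratum `J` over the origin.

The proof for the roots: the functional equation is lifted to charts, and its terms are compared along the `E_j`; the
`E_j` are Rees divisors of this ideal: at a general point of `E_j` (`d = j - 1`, `h = blockEnd R j`) we
use the chart with the first `d` rows `(A, B)`, the rows `d < i ≤ h` of the form `(C A, C B + z Y)`, and
free further rows; the exceptional coordinates `Y` are given by quotients of minors in `J_(q t)`, with
the `t` of the completeness condition for `j`. -/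

namespace Pool.Agent.Results.MP_4e5fcd_ag.FlagDeterminantalIdeals

open Pool.Agent.W574.LM Pool.Agent.TH192.DT Pool.Agent.J6H66.FM

/-- **The motivic monodromy conjecture for `I = ∏ t, J_(q t)`**, `J_q` the ideals of a flag of
determinantal ideals. Let `b` be a polynomial for which `H b` satisfies a functional equation of
Budur, Mustata and Saito of the generators of `I` (`IsLocEq`) for some polynomial `H` with
`H(0) ≠ 0`, for instance the local Bernstein-Sato polynomial of `I` at the origin, or (`H = 1`) the
global one. (1) The numbers `-(ν_j + l) / N_j`, `0 ≤ l < N_j`, for all `j = d + 1 ≤ N` are roots of `b`.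
By the theorem of Budur, Mustata and Saito, `exp(-2 π i ν_j / N_j)` is an eigenvalue of the Verdier
monodromy of `I` at a point over each neighbourhood of the origin. (2) Every series which is given by
the formula for the motivic zeta function on the principalization described above, with arbitrary
`c J` in a commutative ring `R'` with a unit `u` (`𝓜_ℂ` and `𝕃`), lies in the ring generated over
`R'` by `T` and the `1 / (1 - u ^ (-ν_j) T ^ (N_j))`, `N_j > 0`. -/
theorem result (R : Finset ℕ) (m n T : ℕ) (q : Fin T → ℕ) (hq : IsFlagType R m n q) :
    (∀ (b : Polynomial ℂ) (H : MvPolynomial (Fin m × Fin n) ℂ),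
      MvPolynomial.constantCoeff H ≠ 0 →
      IsLocEq H (prodFam fun t => flagMinor R m n (q t)) b →
        ∀ (d : Fin (Finset.univ.sup q)) (l : ℕ), l < ∑ t, flagOrd R q _ d t →
          b.eval (-((flagNu R n _ d : ℂ) + l) / (∑ t, flagOrd R q _ d t : ℕ)) = 0) ∧
    ∀ (R' : Type) [CommRing R'] (u : R'ˣ)
      (c : Finset {d : Fin (Finset.univ.sup q) // 0 < ∑ t, flagOrd R q _ d t} → R'),
      dlZ u (flagNu R n _) (fun d => ∑ t, flagOrd R q _ d t) c ∈
        ratU u {p | ∃ d : Fin (Finset.univ.sup q), 0 < ∑ t, flagOrd R q _ d t ∧
          p = (-(flagNu R n _ d : ℤ), ((∑ t, flagOrd R q _ d t : ℕ) : ℤ))} := by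
  refine ⟨fun b H hH hb d l hl => (sysF hq).roots id Function.surjective_id b H hH hb d l hl,
    fun R' _ u c => ?_⟩
  have h := dlZ_mem u (flagNu R n (Finset.univ.sup q))
    (fun d : Fin (Finset.univ.sup q) => ∑ t, flagOrd R q _ d t) c
  have h2 : (pairs (flagNu R n (Finset.univ.sup q))
      (fun d : Fin (Finset.univ.sup q) => ∑ t, flagOrd R q _ d t) : Set (ℤ × ℤ)) =
      {p | ∃ d : Fin (Finset.univ.sup q), 0 < ∑ t, flagOrd R q _ d t ∧
          p = (-(flagNu R n _ d : ℤ), ((∑ t, flagOrd R q _ d t : ℕ) : ℤ))} := by
    ext p
    rw [Finset.mem_coe, pairs, Finset.mem_image]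
    constructor
    · rintro ⟨d, hd, rfl⟩
      exact ⟨d, (Finset.mem_filter.1 hd).2, rfl⟩
    · rintro ⟨d, hd, rfl⟩
      exact ⟨d, Finset.mem_filter.2 ⟨Finset.mem_univ d, hd⟩, rfl⟩
  rw [h2] at h
  exact h

end Pool.Agent.Results.MP_4e5fcd_ag.FlagDeterminantalIdeals
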