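import Pool.Agent.J6H85.CI.Stp

/-!
# The motivic monodromy conjecture for ideals: linear sections of graphs of monomial maps suffice

`I = (f_1, …, f_r)` is an ideal of `ℂ[x_1, …, x_n]`, `Z_I` its local motivic zeta function at the origin
(`zetaI f`), and `b(s)` denotes the polynomials in the functional equations of Budur, Mustata and Saito
for `I` at the origin (`IsLocalBIdeal f b`); the local Bernstein-Sato polynomial `b_{I,0}` is their monic
generator, and by Budur, Mustata and Saito the numbers `exp(2 π i α)`, `α` a root of `b_{I,0}`, are the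
eigenvalues of the Verdier monodromy at the points over small balls around `0`. We consider

* `Strong f`: every `s < 0` such that `𝕃 ^ (-s)` is a pole of `Z_I` is a root of `b_{I,0}`;
* `Weak f`: for every pole, `exp(2 π i s)` is such an eigenvalue, that is, every `b` has a root in `s + ℤ`
  (this is stated for `s ∉ ℤ`, since `1` is always an eigenvalue).

We reduce both to the ideals `(ℓ_1, …, ℓ_r, w_1 - m_1, …, w_κ - m_κ)`, where the `ℓ_j` have degree at most
one and `m_l` is one of the previous variables or the product of two of them: the linear sections of the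
graphs of monomial maps, and in particular to ideals generated by quadratic polynomials.

Proof: replace `f_j` by `f_j + v (w - u)`, `u`, `v` monomials in `x`, and add the generator `w - u`. The
zeta functions satisfy `(1 - 𝕃⁻¹ T) (c - Z'(T)) = (1 - T) (c - Z(𝕃⁻¹ T))` up to a power of `𝕃`, and
`∑ y_j f_j` becomes, after a change of coordinates, `∑ y_j f_j + y w`.
-/

set_option autoImplicit false

namespace Pool.Agent.Results.MP_4e5fcd_ag.LinearSectionsSuffice

open MvPolynomial Pool.Agent.W428.MOT Pool.Agent.J6H85.CI Pool.Agent.J6H85.CU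
open Pool.Agent.W749.JI (IsLocalBIdeal zetaI)

variable {n r : ℕ}

/-- `𝕃 ^ (-s)` is a pole of the local motivic zeta function `Z_I(T)` of the ideal `I = (f_j)` at the
origin: `Z_I` is not in the ring generated over `𝓜_ℂ` by `T` and all `1 / (1 - 𝕃 ^ a T ^ b)`, `b > 0`,
`a / b ≠ s`. -/
def IsPole (f : Fin r → MvPolynomial (Fin n) ℂ) (s : ℚ) : Prop :=
  zetaI f ∉ ratRing ℂ {p : ℤ × ℤ | 0 < p.2 ∧ (p.1 : ℚ) / p.2 ≠ s}

/-- The strong form: every negative pole is a root of the local Bernstein-Sato polynomial. -/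
def Strong (f : Fin r → MvPolynomial (Fin n) ℂ) : Prop :=
  ∀ s : ℚ, s < 0 → IsPole f s → ∀ b : Polynomial ℂ, IsLocalBIdeal f b → b.eval (s : ℂ) = 0

/-- For every pole `s`, the number `exp(2 π i s)` is `1` or an eigenvalue of the monodromy: every `b` has
a root in `s + ℤ`. -/
def Weak (f : Fin r → MvPolynomial (Fin n) ℂ) : Prop :=
  ∀ s : ℚ, IsPole f s → (∃ m : ℤ, s = m) ∨
    ∀ b : Polynomial ℂ, IsLocalBIdeal f b → ∃ m : ℤ, b.eval ((s : ℂ) + m) = 0

/-- The generators are `r` polynomials of degree at most one, followed by `x_{n+l} - x_i` or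
`x_{n+l} - x_i x_j` for `l = 0, …, κ - 1`, with `j < i < n + l`. -/
def IsSection {κ : ℕ} (F : Fin (r + κ) → MvPolynomial (Fin (n + κ)) ℂ) : Prop :=
  (∀ j : Fin r, (F (Fin.castAdd κ j)).totalDegree ≤ 1) ∧
    ∀ l : Fin κ, ∃ i < Fin.natAdd n l, F (Fin.natAdd r l) = X (Fin.natAdd n l) - X i ∨
      ∃ j < i, F (Fin.natAdd r l) = X (Fin.natAdd n l) - X i * X j

theorem isPole_iff (f : Fin r → MvPolynomial (Fin n) ℂ) (s : ℚ) :
    IsPole f s ↔ ¬ zetaI f ∈ rat (Lu ℂ) (Off s) := Iff.rfl

theorem isSection_of {κ : ℕ} {F : Fin (r + κ) → MvPolynomial (Fin (n + κ)) ℂ}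
    (h : Nf r n F) : IsSection F := by
  refine ⟨fun j => h.1 _ j.2, fun l => ?_⟩
  obtain ⟨l', h1, h2⟩ := h.2 (Fin.natAdd r l) (by rw [Fin.val_natAdd]; omega)
  obtain ⟨k, i, h3, h4, h5⟩ := bin_form h2
  have hk : k = Fin.natAdd n l := by
    apply Fin.ext
    rw [h3, Fin.val_natAdd]
    rw [Fin.val_natAdd] at h1
    omega
  subst hk
  exact ⟨i, h4, h5⟩

theorem not_pole_zero (f : Fin r → MvPolynomial (Fin n) ℂ) (hf : ¬ ∃ j, f j ≠ 0) (s : ℚ) :
    ¬ IsPole f s := by
  rw [isPole_iff, not_not, zeta_zero f hf]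
  exact (rat (Lu ℂ) (Off s)).zero_mem

theorem eval_fe (b : Polynomial ℂ) (κ : ℕ) (s : ℂ) :
    ((Polynomial.X + 1) * b.comp (Polynomial.X + Polynomial.C (κ : ℂ))).eval s =
      (s + 1) * b.eval (s + κ) := by
  rw [Polynomial.eval_mul, Polynomial.eval_comp, Polynomial.eval_add, Polynomial.eval_add,
    Polynomial.eval_X, Polynomial.eval_one, Polynomial.eval_C]

theorem strong_of {κ m t : ℕ} {f : Fin r → MvPolynomial (Fin n) ℂ}
    {F : Fin t → MvPolynomial (Fin m) ℂ} (h : Rl f F κ) (hF : Strong F) : Strong f := by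
  intro s hs hp b hb
  by_cases hf : ∃ j, f j ≠ 0
  · have hn : ∀ i : ℕ, s ≠ i := by
      rintro i rfl
      exact absurd hs (not_lt.2 (Nat.cast_nonneg i))
    have hp' : IsPole F (s - κ) := by
      rw [isPole_iff] at hp ⊢
      rwa [← h.pole s hn]
    have h1 := hF (s - κ) (by
      have : (0 : ℚ) ≤ κ := Nat.cast_nonneg κ
      linarith) hp' _ (h.fe hf hb)
    split_ifs at h1 with h0
    · rw [h0, Nat.cast_zero, sub_zero] at h1
      exact h1
    · rw [eval_fe] at h1
      have e : (((s - κ : ℚ) : ℂ) + κ) = (s : ℂ) := by push_cast; ring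
      rw [e] at h1
      rcases mul_eq_zero.1 h1 with h2 | h2
      · exfalso
        have h3 : ((s - κ + 1 : ℚ) : ℂ) = 0 := by push_cast at h2 ⊢; exact h2
        have h4 : s - κ + 1 = 0 := by exact_mod_cast h3
        have h5 : (1 : ℚ) ≤ κ := by exact_mod_cast Nat.one_le_iff_ne_zero.2 h0
        linarith
      · exact h2
  · exact absurd hp (not_pole_zero f hf s)

theorem weak_of {κ m t : ℕ} {f : Fin r → MvPolynomial (Fin n) ℂ}
    {F : Fin t → MvPolynomial (Fin m) ℂ} (h : Rl f F κ) (hF : Weak F) : Weak f := by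
  intro s hp
  by_cases hs : ∃ m : ℤ, s = m
  · exact Or.inl hs
  · right
    intro b hb
    by_cases hf : ∃ j, f j ≠ 0
    · have hn : ∀ i : ℕ, s ≠ i := fun i hi => hs ⟨i, by rw [hi]; push_cast; rfl⟩
      have hp' : IsPole F (s - κ) := by
        rw [isPole_iff] at hp ⊢
        rwa [← h.pole s hn]
      rcases hF (s - κ) hp' with ⟨m', hm'⟩ | h1
      · exfalso
        apply hs
        refine ⟨m' + κ, ?_⟩
        push_cast
        linarith
      · obtain ⟨m', h2⟩ := h1 _ (h.fe hf hb)
        split_ifs at h2 with h0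
        · refine ⟨m', ?_⟩
          rw [h0, Nat.cast_zero, sub_zero] at h2
          exact h2
        · rw [eval_fe] at h2
          rcases mul_eq_zero.1 h2 with h3 | h3
          · exfalso
            apply hs
            refine ⟨κ - m' - 1, ?_⟩
            have h4 : ((s - κ + m' + 1 : ℚ) : ℂ) = 0 := by push_cast at h3 ⊢; exact h3
            have h5 : s - κ + m' + 1 = 0 := by exact_mod_cast h4
            push_cast
            linarith
          · refine ⟨m', ?_⟩
            have e : (((s - κ : ℚ) : ℂ) + m' + κ) = (s : ℂ) + m' := by push_cast; ring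
            rw [e] at h3
            exact h3
    · exact absurd hp (not_pole_zero f hf s)

/-- **Linear sections of graphs of monomial maps suffice for the motivic monodromy conjecture for
ideals.**

(1) For every ideal `I = (f_1, …, f_r) ≠ 0` of `ℂ[x_1, …, x_n]` there are `κ` and an ideal `J = (F_j)` in
`n + κ` variables with `IsSection F`, such that for all rational `s ∉ ℕ` the number `s` is a pole of
`Z_I` if and only if `s - κ` is a pole of `Z_J`, and every `b(s)` for `I` gives `(s + 1) b(s + κ)` (and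
`b(s)`, if `κ = 0`) for `J`.
(2) The strong form holds for all ideals with `r` generators if it holds for all `J` with `r` linear
forms; it holds for all ideals if and only if it holds for all such `J`.
(3) The same for the form with the eigenvalues. -/
theorem result :
    (∀ (n r : ℕ) (f : Fin r → MvPolynomial (Fin n) ℂ), (∃ j, f j ≠ 0) →
      ∃ (κ : ℕ) (F : Fin (r + κ) → MvPolynomial (Fin (n + κ)) ℂ), IsSection F ∧
        (∀ s : ℚ, (∀ i : ℕ, s ≠ i) → (IsPole f s ↔ IsPole F (s - κ))) ∧
        ∀ b : Polynomial ℂ, IsLocalBIdeal f b → IsLocalBIdeal F (if κ = 0 then b else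
          (Polynomial.X + 1) * b.comp (Polynomial.X + Polynomial.C (κ : ℂ)))) ∧
    ((∀ r : ℕ, (∀ (n κ : ℕ) (F : Fin (r + κ) → MvPolynomial (Fin (n + κ)) ℂ),
        IsSection F → Strong F) → ∀ (n : ℕ) (f : Fin r → MvPolynomial (Fin n) ℂ), Strong f) ∧
      ((∀ (r n : ℕ) (f : Fin r → MvPolynomial (Fin n) ℂ), Strong f) ↔
        ∀ (r n κ : ℕ) (F : Fin (r + κ) → MvPolynomial (Fin (n + κ)) ℂ),
          IsSection F → Strong F)) ∧
    ((∀ r : ℕ, (∀ (n κ : ℕ) (F : Fin (r + κ) → MvPolynomial (Fin (n + κ)) ℂ),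
        IsSection F → Weak F) → ∀ (n : ℕ) (f : Fin r → MvPolynomial (Fin n) ℂ), Weak f) ∧
      ((∀ (r n : ℕ) (f : Fin r → MvPolynomial (Fin n) ℂ), Weak f) ↔
        ∀ (r n κ : ℕ) (F : Fin (r + κ) → MvPolynomial (Fin (n + κ)) ℂ),
          IsSection F → Weak F)) := by
  have h1 : ∀ r : ℕ, (∀ (n κ : ℕ) (F : Fin (r + κ) → MvPolynomial (Fin (n + κ)) ℂ),
      IsSection F → Strong F) → ∀ (n : ℕ) (f : Fin r → MvPolynomial (Fin n) ℂ), Strong f := by
    intro r h n f
    obtain ⟨κ, F, h2, h3⟩ := exists_section f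
    exact strong_of h3 (h n κ F (isSection_of h2))
  have h2 : ∀ r : ℕ, (∀ (n κ : ℕ) (F : Fin (r + κ) → MvPolynomial (Fin (n + κ)) ℂ),
      IsSection F → Weak F) → ∀ (n : ℕ) (f : Fin r → MvPolynomial (Fin n) ℂ), Weak f := by
    intro r h n f
    obtain ⟨κ, F, h2, h3⟩ := exists_section f
    exact weak_of h3 (h n κ F (isSection_of h2))
  refine ⟨fun n r f hf => ?_, ⟨h1, fun h r n κ F _ => h _ _ F, fun h r n f => h1 r (h r) n f⟩,
    ⟨h2, fun h r n κ F _ => h _ _ F, fun h r n f => h2 r (h r) n f⟩⟩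
  obtain ⟨κ, F, h3, h4⟩ := exists_section f
  refine ⟨κ, F, isSection_of h3, fun s hs => ?_, fun b hb => h4.fe hf hb⟩
  rw [isPole_iff, isPole_iff, h4.pole s hs]

end Pool.Agent.Results.MP_4e5fcd_ag.LinearSectionsSuffice
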